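import Pool.Agent.K4H57.UN.Main

/-!
# Smooth subvarieties of any codimension: the bound linear in the codimension
-/

set_option autoImplicit false

open Finset Polynomial

namespace Pool.Agent.K4H57.UN

open Pool.Agent.R920.CH Pool.Agent.K4H57.CI

/-- The basic facts on the roots of the Chern polynomial. -/
theorem root_facts (r : ℕ) (hr : 1 ≤ r) (c : ℕ → ℤ) (h0 : c 0 = 1)
    (hpos : ∀ i ≤ r, 0 ≤ c i) (hle : ∀ i ≤ r, c i ≤ c 1 ^ i) (e : ℕ) (hee : c 1 = e) :
    Multiset.card (rootsOf (chernPoly r c)) = r ∧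
    (∀ x ∈ rootsOf (chernPoly r c), ‖x‖ ≤ 2 * e + 1) ∧
    (∀ x ∈ rootsOf (chernPoly r c), x ≠ 0) ∧
    ∃ c₀ : ℤ, ∀ S ∈ (rootsOf (chernPoly r c)).powerset, ‖S.sum - c₀‖ ≤ (r * (e + 1) : ℕ) := by
  obtain ⟨hM, hD⟩ := chernPoly_monic r c h0
  have hcard : Multiset.card (rootsOf (chernPoly r c)) = r := by
    rw [rootsOf, splits_iff_card_roots.1 (IsAlgClosed.splits _), hM.natDegree_map, hD]
  have hroot : ∀ x ∈ rootsOf (chernPoly r c), aeval x (chernPoly r c) = 0 := by
    intro x hx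
    rw [rootsOf, mem_roots (hM.map _).ne_zero, IsRoot, eval_map] at hx
    exact hx
  have hnorm : ∀ x ∈ rootsOf (chernPoly r c), ‖x‖ ≤ 2 * e + 1 := by
    intro x hx
    have h1 := root_bound r c h0 hpos hle hr x (hroot x hx)
    rw [hee] at h1
    have h2 : ‖x‖ ≤ ‖x - 1‖ + ‖(1 : ℂ)‖ := by
      calc ‖x‖ = ‖(x - 1) + 1‖ := by ring_nf
        _ ≤ _ := norm_add_le _ _
    rw [norm_one] at h2
    push_cast at h1
    linarith
  have hne : ∀ x ∈ rootsOf (chernPoly r c), x ≠ 0 := by
    intro x hx h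
    have h1 := hroot x hx
    rw [h] at h1
    have h2 : (chernPoly r c).eval 0 = 0 := by
      have h3 : aeval (0 : ℂ) (chernPoly r c) = (((chernPoly r c).eval 0 : ℤ) : ℂ) := by
        have h4 := Polynomial.aeval_algebraMap_apply ℂ (0 : ℤ) (chernPoly r c)
        rw [map_zero, Polynomial.coe_aeval_eq_eval] at h4
        rw [h4]
        simp
      rw [h3] at h1
      exact_mod_cast h1
    have := root_pos r c h0 hpos 0 h2
    omega
  refine ⟨hcard, hnorm, hne, ?_⟩
  -- the sum of all roots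
  obtain ⟨m, hm⟩ : ∃ m : ℤ, (rootsOf (chernPoly r c)).sum = m := by
    refine ⟨- (chernPoly r c).nextCoeff, ?_⟩
    have h1 := (IsAlgClosed.splits ((chernPoly r c).map (Int.castRingHom ℂ)))
    have h2 := h1.nextCoeff_eq_neg_sum_roots_of_monic (hM.map (Int.castRingHom ℂ))
    rw [nextCoeff_map (f := Int.castRingHom ℂ) Int.cast_injective] at h2
    rw [rootsOf]
    push_cast
    rw [eq_neg_iff_add_eq_zero, add_comm, ← eq_neg_iff_add_eq_zero, ← h2]
    simp
  refine ⟨m / 2, ?_⟩
  set c₀ : ℤ := m / 2 with hc₀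
  have hhalf : ‖(m : ℂ) / 2 - c₀‖ ≤ 1 / 2 := by
    have h1 : m = 2 * c₀ + m % 2 := by omega
    have h2 : m % 2 = 0 ∨ m % 2 = 1 := by omega
    have h3 : (m : ℂ) / 2 - c₀ = ((m % 2 : ℤ) : ℂ) / 2 := by
      have h4 : (m : ℂ) = 2 * c₀ + ((m % 2 : ℤ) : ℂ) := by exact_mod_cast h1
      rw [h4]
      ring
    rw [h3]
    rcases h2 with h2 | h2 <;> rw [h2] <;> norm_num
  intro S hS
  have h1 := norm_sub_half _ S hS (2 * e + 1) hnorm
  rw [hm, hcard] at h1
  have h2 : ‖S.sum - c₀‖ ≤ ‖S.sum - m / 2‖ + ‖(m : ℂ) / 2 - c₀‖ := by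
    calc ‖S.sum - c₀‖ = ‖(S.sum - m / 2) + ((m : ℂ) / 2 - c₀)‖ := by ring_nf
      _ ≤ _ := norm_add_le _ _
  have h4 : (1 : ℝ) ≤ r := by exact_mod_cast hr
  have h5 : (0 : ℝ) ≤ e := by positivity
  push_cast
  nlinarith

/-- **Any codimension**: the bound linear in the codimension. -/
theorem linear_codim (r N : ℕ) (hr : 1 ≤ r) (c : ℕ → ℤ) (h0 : c 0 = 1)
    (hpos : ∀ i ≤ r, 0 ≤ c i) (hle : ∀ i ≤ r, c i ≤ c 1 ^ i)
    (hN : 50 * r * (c 1 + 1) + 2 * r * min (r : ℝ) (c 1 + 1) * Real.log (4 * c 1 + 2) ≤ (N : ℝ))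
    (hRR : RiemannRochSub N (chernPoly r c)) :
    ∃ a : Multiset ℤ, (∀ x ∈ a, 1 ≤ x) ∧ Multiset.card a = r ∧
      chernPoly r c = (a.map fun x => X - C x).prod := by
  obtain ⟨hM, hD⟩ := chernPoly_monic r c h0
  have he : 0 ≤ c 1 := hpos 1 hr
  obtain ⟨e, hee⟩ := Int.eq_ofNat_of_zero_le he
  obtain ⟨hcard, hnorm, hne, c₀, hS⟩ := root_facts r hr c h0 hpos hle e hee
  have hr' : (1 : ℝ) ≤ r := by exact_mod_cast hr
  have he' : (0 : ℝ) ≤ e := by positivity
  rw [hee] at hN
  push_cast at hN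
  have hlog : 0 ≤ Real.log (4 * e + 2) := Real.log_nonneg (by linarith)
  have hmin0 : 0 ≤ min (r : ℝ) (e + 1) := le_min (by linarith) (by linarith)
  have hmain : (50 : ℝ) * r * (e + 1) ≤ N := by
    have : 0 ≤ 2 * (r : ℝ) * min (r : ℝ) (e + 1) * Real.log (4 * e + 2) := by positivity
    linarith
  have hmain' : 50 * (r * (e + 1)) ≤ N := by
    have : ((50 * (r * (e + 1)) : ℕ) : ℝ) ≤ N := by
      push_cast
      linarith
    exact_mod_cast this
  obtain ⟨a, ha⟩ := integral_roots (chernPoly r c) hM r (2 * e + 1) (r * (e + 1)) N hr hD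
    (by omega) (by
      intro x hx
      have := hnorm x hx
      push_cast
      exact this) hne (Nat.le_mul_of_pos_right _ (by omega)) c₀ hS (by omega) (by
      push_cast
      have e1 : (4 : ℝ) * (2 * e + 1 + 1) = 8 * (e + 1) := by ring
      have e2 : (2 : ℝ) * (2 * e + 1) = 4 * e + 2 := by ring
      rw [e1, e2]
      have h1 : Real.log (8 * (e + 1)) + Real.log 2 ≤ 5 * (e + 1) - 1 := by
        rw [← Real.log_mul (by positivity) (by norm_num)]
        have h2 : Real.log (8 * (e + 1) * 2) = Real.log 16 + Real.log (e + 1) := by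
          rw [← Real.log_mul (by norm_num) (by positivity)]
          congr 1
          ring
        have h3 : Real.log 16 < 2.8 := by
          have h4 : Real.log 16 = 4 * Real.log 2 := by
            rw [show (16 : ℝ) = 2 ^ 4 by norm_num, Real.log_pow]
            norm_num
          rw [h4]
          have := Real.log_two_lt_d9
          linarith
        have h4 := Real.log_le_sub_one_of_pos (by positivity : (0 : ℝ) < e + 1)
        rw [h2]
        linarith
      have h2 : min (r : ℝ) (4 * e + 2 + 1) ≤ 4 * min (r : ℝ) (e + 1) := by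
        rcases le_total (r : ℝ) (e + 1) with h | h
        · rw [min_eq_left h]
          exact (min_le_left _ _).trans (by linarith)
        · rw [min_eq_right h]
          exact (min_le_right _ _).trans (by linarith)
      have h3 : (r : ℝ) * min (r : ℝ) (4 * e + 2 + 1) * Real.log (4 * e + 2) ≤
          4 * (r * min (r : ℝ) (e + 1) * Real.log (4 * e + 2)) := by
        have h4 := mul_le_mul_of_nonneg_right (mul_le_mul_of_nonneg_left h2
          (by linarith : (0 : ℝ) ≤ r)) hlog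
        linarith
      have h5 : 0 ≤ (r : ℝ) * min (r : ℝ) (e + 1) * Real.log (4 * e + 2) := by positivity
      have h6 : (r : ℝ) * (Real.log (8 * (e + 1)) + Real.log 2) ≤ r * (5 * (e + 1) - 1) :=
        mul_le_mul_of_nonneg_left h1 (by linarith)
      nlinarith) hRR
  refine ⟨a, ?_, ?_, ha⟩
  · intro x hx
    apply root_pos r c h0 hpos
    rw [ha, eval_multiset_prod, Multiset.prod_eq_zero_iff, Multiset.map_map, Multiset.mem_map]
    exact ⟨x, hx, by simp⟩
  · have h1 := congrArg natDegree ha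
    rw [hD] at h1
    rw [h1]
    have h2 := natDegree_multiset_prod_X_sub_C_eq_card a
    exact h2.symm

end Pool.Agent.K4H57.UN
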