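import Pool.Agent.R920.CH.Main

/-!
# Lower bound for the product of the distances of the conjugates to the nearest integers
-/

set_option autoImplicit false

open Finset Polynomial

namespace Pool.Agent.K4H57.UN

open Pool.Agent.R920.CH

lemma dist_exp (a : ℂ) : min 1 ‖a - round a.re‖ / 2 ≤
    ‖1 - Complex.exp (-(2 * Real.pi * Complex.I) * a)‖ := by
  set κ : ℤ := round a.re with hκ
  set b : ℂ := a - κ with hb
  have hexp : Complex.exp (-(2 * Real.pi * Complex.I) * a) =
      Complex.exp (-(2 * Real.pi * Complex.I) * b) := by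
    have h1 : -(2 * Real.pi * Complex.I) * a = -(2 * Real.pi * Complex.I) * b +
        ((-κ : ℤ) : ℂ) * (2 * Real.pi * Complex.I) := by
      rw [hb]
      push_cast
      ring
    rw [h1, Complex.exp_add, Complex.exp_int_mul_two_pi_mul_I, mul_one]
  set u : ℝ := b.re with hu
  set v : ℝ := b.im with hv
  have hu2 : |u| ≤ 1 / 2 := by
    have h1 := abs_sub_round a.re
    have h2 : u = a.re - κ := by rw [hu, hb]; simp
    rw [h2]
    exact h1
  set t : ℝ := Real.exp (2 * Real.pi * v) with ht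
  have ht0 : 0 < t := Real.exp_pos _
  have hform : -(2 * Real.pi * Complex.I) * b = ((2 * Real.pi * v : ℝ) : ℂ) +
      ((-(2 * Real.pi * u) : ℝ) : ℂ) * Complex.I := by
    have h1 : b = (u : ℂ) + (v : ℂ) * Complex.I := (Complex.re_add_im b).symm
    rw [h1]
    push_cast
    linear_combination (-(2 * Real.pi * v) : ℂ) * Complex.I_sq
  have hsq : ‖1 - Complex.exp (-(2 * Real.pi * Complex.I) * a)‖ ^ 2 =
      (1 - t) ^ 2 + 4 * t * Real.sin (Real.pi * u) ^ 2 := by
    rw [hexp, hform, Complex.exp_add, ← Complex.ofReal_exp, ← ht, Complex.exp_mul_I,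
      ← Complex.ofReal_cos, ← Complex.ofReal_sin, Complex.sq_norm, Complex.normSq_apply]
    simp only [Complex.sub_re, Complex.one_re, Complex.mul_re, Complex.ofReal_re, Complex.add_re,
      Complex.I_re, Complex.ofReal_im, Complex.I_im, Complex.add_im, Complex.mul_im,
      Complex.sub_im, Complex.one_im]
    rw [Real.cos_neg, Real.sin_neg]
    have h1 : Real.cos (2 * Real.pi * u) = 1 - 2 * Real.sin (Real.pi * u) ^ 2 := by
      rw [mul_assoc, Real.cos_two_mul, Real.cos_sq']
      ring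
    have h2 := Real.sin_sq_add_cos_sq (2 * Real.pi * u)
    have h3 : (1 - (t * (Real.cos (2 * Real.pi * u)))) ^ 2 + (t * Real.sin (2 * Real.pi * u)) ^ 2 =
        1 - 2 * t * Real.cos (2 * Real.pi * u) + t ^ 2 := by
      linear_combination t ^ 2 * h2
    have h4 : 1 - 2 * t * Real.cos (2 * Real.pi * u) + t ^ 2 =
        (1 - t) ^ 2 + 4 * t * Real.sin (Real.pi * u) ^ 2 := by
      rw [h1]
      ring
    rw [← h4, ← h3]
    ring
  have hsin : 4 * u ^ 2 ≤ Real.sin (Real.pi * u) ^ 2 := by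
    have h1 : 2 * |u| ≤ Real.sin (Real.pi * |u|) := by
      have h2 := Real.mul_le_sin (x := Real.pi * |u|) (by positivity) (by
        have := Real.pi_pos
        nlinarith)
      have h3 : 2 / Real.pi * (Real.pi * |u|) = 2 * |u| := by
        have := Real.pi_pos.ne'
        field_simp
      rwa [h3] at h2
    have h2 : Real.sin (Real.pi * |u|) ^ 2 = Real.sin (Real.pi * u) ^ 2 := by
      rcases abs_cases u with ⟨h, _⟩ | ⟨h, _⟩
      · rw [h]
      · rw [h, mul_neg, Real.sin_neg, neg_sq]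
    rw [← h2]
    have h3 : (2 * |u|) ^ 2 ≤ Real.sin (Real.pi * |u|) ^ 2 :=
      pow_le_pow_left₀ (by positivity) h1 2
    rw [mul_pow, sq_abs] at h3
    linarith
  by_cases hc : 1 / 2 ≤ |1 - t|
  · have h1 : (1 / 2) ^ 2 ≤ ‖1 - Complex.exp (-(2 * Real.pi * Complex.I) * a)‖ ^ 2 := by
      rw [hsq]
      have h2 : (1 / 2 : ℝ) ^ 2 ≤ |1 - t| ^ 2 := pow_le_pow_left₀ (by norm_num) hc 2
      rw [sq_abs] at h2
      have : 0 ≤ 4 * t * Real.sin (Real.pi * u) ^ 2 := by positivity
      linarith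
    have h2 : 1 / 2 ≤ ‖1 - Complex.exp (-(2 * Real.pi * Complex.I) * a)‖ :=
      (pow_le_pow_iff_left₀ (by norm_num) (norm_nonneg _) (by norm_num)).1 h1
    have h3 : min 1 ‖b‖ ≤ 1 := min_le_left _ _
    linarith
  · push Not at hc
    rw [abs_lt] at hc
    have hpi := Real.pi_gt_three
    have hvt : |v| ≤ |1 - t| := by
      rcases le_or_gt 0 v with h | h
      · have h1 : 2 * Real.pi * v + 1 ≤ t := Real.add_one_le_exp _
        rw [abs_of_nonneg h, abs_sub_comm, abs_of_nonneg (by nlinarith)]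
        nlinarith
      · have h1 : -(2 * Real.pi * v) + 1 ≤ Real.exp (-(2 * Real.pi * v)) := Real.add_one_le_exp _
        have h2 : Real.exp (-(2 * Real.pi * v)) * t = 1 := by
          rw [ht, ← Real.exp_add]
          simp
        have h3 : (-(2 * Real.pi * v) + 1) * t ≤ 1 :=
          (mul_le_mul_of_nonneg_right h1 ht0.le).trans_eq h2
        have h4 : -v ≤ 1 - t := by
          have h5 : -v ≤ -(2 * Real.pi * v) * t := by
            have h6 : 1 ≤ 2 * Real.pi * t := by nlinarith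
            nlinarith
          nlinarith
        rw [abs_of_neg h]
        exact h4.trans (le_abs_self _)
    have h1 : ‖b‖ ^ 2 ≤ ‖1 - Complex.exp (-(2 * Real.pi * Complex.I) * a)‖ ^ 2 := by
      rw [hsq, Complex.sq_norm, Complex.normSq_apply, ← hu, ← hv]
      have h2 : v ^ 2 ≤ (1 - t) ^ 2 := sq_le_sq.2 hvt
      have h3 : 4 * u ^ 2 * (4 * t) ≤ Real.sin (Real.pi * u) ^ 2 * (4 * t) :=
        mul_le_mul_of_nonneg_right hsin (by positivity)
      nlinarith [sq_nonneg u, hc.1, hc.2]
    have h2 : ‖b‖ ≤ ‖1 - Complex.exp (-(2 * Real.pi * Complex.I) * a)‖ :=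
      (pow_le_pow_iff_left₀ (norm_nonneg _) (norm_nonneg _) (by norm_num)).1 h1
    have h3 : min 1 ‖b‖ ≤ ‖b‖ := min_le_right _ _
    have h4 : 0 ≤ min 1 ‖b‖ := le_min zero_le_one (norm_nonneg _)
    linarith

theorem lower (f : ℤ[X]) (hf : f.Monic) (m ρ : ℕ) (hρ : 1 ≤ ρ) (y : Fin m → ℂ)
    (hy : rootsOf f = univ.val.map y) (hyρ : ∀ i, ‖y i‖ ≤ ρ) (hno : ∀ κ : ℤ, f.eval κ ≠ 0) :
    (1 / 2) ^ m * (1 / (2 * ρ)) ^ (m * min m (2 * ρ + 1)) ≤
      ∏ i, ‖1 - Complex.exp (-(2 * Real.pi * Complex.I) * y i)‖ := by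
  classical
  have hρ' : (1 : ℝ) ≤ ρ := by exact_mod_cast hρ
  set K : Finset ℤ := univ.image fun i => round (y i).re with hK
  have hKρ : ∀ κ ∈ K, |κ| ≤ ρ := by
    intro κ hκ
    rw [hK, mem_image] at hκ
    obtain ⟨i, _, rfl⟩ := hκ
    have h1 : |(y i).re| ≤ ρ := (Complex.abs_re_le_norm _).trans (hyρ i)
    have h2 := abs_sub_round (y i).re
    rw [abs_le] at h1 h2 ⊢
    constructor
    · have h3 : (-(ρ : ℤ) - 1 : ℝ) < round (y i).re := by
        push_cast
        linarith [h1.1, h2.2]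
      have h4 : (-(ρ : ℤ) - 1 : ℤ) < round (y i).re := by exact_mod_cast h3
      omega
    · have h3 : (round (y i).re : ℝ) < (ρ : ℤ) + 1 := by
        push_cast
        linarith [h1.2, h2.1]
      have h4 : round (y i).re < (ρ : ℤ) + 1 := by exact_mod_cast h3
      omega
  have hKc : K.card ≤ min m (2 * ρ + 1) := by
    refine le_min ?_ ?_
    · have := card_image_le (s := (univ : Finset (Fin m))) (f := fun i => round (y i).re)
      rwa [card_univ, Fintype.card_fin] at this
    · have h1 : K ⊆ Finset.Icc (-(ρ : ℤ)) ρ := fun κ hκ => by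
        rw [mem_Icc]
        exact abs_le.1 (hKρ κ hκ)
      have h2 := card_le_card h1
      rw [Int.card_Icc] at h2
      omega
  have hval : ∀ κ : ℤ, 1 ≤ ∏ i, ‖y i - κ‖ := by
    intro κ
    have h1 : ((f.eval κ : ℤ) : ℂ) = ∏ i, ((κ : ℂ) - y i) := by
      have h2 : f.map (Int.castRingHom ℂ) = ((rootsOf f).map fun a => X - C a).prod :=
        (IsAlgClosed.splits (f.map (Int.castRingHom ℂ))).eq_prod_roots_of_monic (hf.map _)
      have h3 := congrArg (eval (κ : ℂ)) h2
      rw [hy, Multiset.map_map, eval_multiset_prod, Multiset.map_map] at h3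
      have h4 : eval (κ : ℂ) (f.map (Int.castRingHom ℂ)) = ((f.eval κ : ℤ) : ℂ) := by
        rw [eval_intCast_map]
        simp
      rw [← h4, h3]
      show (Multiset.map _ univ.val).prod = (Multiset.map _ univ.val).prod
      refine congrArg Multiset.prod (Multiset.map_congr rfl fun i _ => ?_)
      simp
    have h2 : ∏ i, ‖y i - κ‖ = |((f.eval κ : ℤ) : ℝ)| := by
      rw [← Complex.norm_intCast, h1, norm_prod]
      exact prod_congr rfl fun i _ => norm_sub_rev _ _
    rw [h2]
    have h3 : 1 ≤ |f.eval κ| := Int.one_le_abs (hno κ)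
    have h4 : ((1 : ℤ) : ℝ) ≤ ((|f.eval κ| : ℤ) : ℝ) := by exact_mod_cast h3
    push_cast at h4
    exact h4
  have hmin : ∀ κ ∈ K, (1 / (2 * ρ) : ℝ) ^ m ≤ ∏ i, min 1 ‖y i - κ‖ := by
    intro κ hκ
    have h1 : ∏ i, (‖y i - κ‖ * (1 / (2 * ρ))) ≤ ∏ i, min 1 ‖y i - κ‖ := by
      refine prod_le_prod (fun _ _ => by positivity) fun i _ => ?_
      have h2 : ‖y i - κ‖ ≤ 2 * ρ := by
        refine (norm_sub_le _ _).trans ?_
        rw [Complex.norm_intCast]
        have h3 : ((|κ| : ℤ) : ℝ) ≤ ((ρ : ℕ) : ℝ) := by exact_mod_cast hKρ κ hκ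
        push_cast at h3
        linarith [hyρ i]
      refine le_min ?_ ?_
      · rw [mul_one_div, div_le_one (by positivity)]
        exact h2
      · refine mul_le_of_le_one_right (norm_nonneg _) ?_
        rw [div_le_one (by positivity)]
        linarith
    rw [prod_mul_distrib, prod_const, card_univ, Fintype.card_fin] at h1
    refine le_trans ?_ h1
    exact le_mul_of_one_le_left (by positivity) (hval κ)
  have hprod : ((1 / (2 * ρ) : ℝ) ^ m) ^ K.card ≤ ∏ i, min 1 ‖y i - round (y i).re‖ := by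
    calc ((1 / (2 * ρ) : ℝ) ^ m) ^ K.card = ∏ _κ ∈ K, (1 / (2 * ρ) : ℝ) ^ m := by
          rw [prod_const]
      _ ≤ ∏ κ ∈ K, ∏ i, min 1 ‖y i - κ‖ := prod_le_prod (fun _ _ => by positivity) hmin
      _ = ∏ i, ∏ κ ∈ K, min 1 ‖y i - κ‖ := prod_comm
      _ ≤ _ := by
        refine prod_le_prod (fun i _ => prod_nonneg fun κ _ => le_min zero_le_one (norm_nonneg _))
          fun i _ => ?_
        have hi : round (y i).re ∈ K := mem_image_of_mem _ (mem_univ i)
        rw [← mul_prod_erase K _ hi]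
        refine mul_le_of_le_one_right (le_min zero_le_one (norm_nonneg _)) ?_
        exact prod_le_one (fun κ _ => le_min zero_le_one (norm_nonneg _))
          fun κ _ => min_le_left _ _
  have hfin : ∏ i, (min 1 ‖y i - round (y i).re‖ / 2) ≤
      ∏ i, ‖1 - Complex.exp (-(2 * Real.pi * Complex.I) * y i)‖ :=
    prod_le_prod (fun i _ => div_nonneg (le_min zero_le_one (norm_nonneg _)) (by norm_num))
      fun i _ => dist_exp (y i)
  refine le_trans ?_ hfin
  have h1 : ∏ i, (min 1 ‖y i - round (y i).re‖ / 2) =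
      (1 / 2) ^ m * ∏ i, min 1 ‖y i - round (y i).re‖ := by
    have : ∀ i, min 1 ‖y i - round (y i).re‖ / 2 = (1 / 2) * min 1 ‖y i - round (y i).re‖ :=
      fun i => by ring
    simp only [this]
    rw [prod_mul_distrib, prod_const, card_univ, Fintype.card_fin]
  rw [h1]
  refine mul_le_mul_of_nonneg_left (le_trans ?_ hprod) (by positivity)
  rw [← pow_mul]
  refine pow_le_pow_of_le_one (by positivity) ?_ (Nat.mul_le_mul_left _ hKc)
  rw [div_le_one (by positivity)]
  linarith

end Pool.Agent.K4H57.UN
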