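import Pool.Agent.K4H57.UN.Taylor
import Pool.Agent.K4H57.UN.Lower
import Pool.Agent.K4H57.CI.Fin
import Pool.Agent.K4H57.CI.ModP

/-!
# The Chern roots are integers if the dimension is large
-/

set_option autoImplicit false

open Finset Polynomial

namespace Pool.Agent.K4H57.UN

open Pool.Agent.R920.CH Pool.Agent.K4H57.CI

/-- The Riemann-Roch conditions for the Newton polynomials. -/
lemma rr_newton {N r : ℕ} (P : ℤ[X]) (x : Fin r → ℂ) (hx : rootsOf P = univ.val.map x) (c₀ : ℤ)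
    (hRR : RiemannRochSub N P) (n : ℕ) (hn : n ≤ N) :
    ∃ z : ℤ, ∑ T ∈ (univ : Finset (Fin r)).powerset, (-1 : ℂ) ^ T.card *
      ((n.factorial : ℂ)⁻¹ * D n (∑ i ∈ T, x i - c₀)) = z := by
  obtain ⟨k, hk⟩ : ∃ k, n / 2 = k := ⟨_, rfl⟩
  set f : ℚ[X] := (bin n).comp (X + C ((k - c₀ : ℤ) : ℚ)) with hf
  have hfi : IsIntegerValued f := intVal_comp (bin_int _) _
  have hfd : f.natDegree ≤ N := by
    rw [hf, natDegree_comp, natDegree_X_add_C, mul_one]
    exact (natDegree_bin n).trans hn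
  obtain ⟨z, hz⟩ := hRR f hfi hfd
  refine ⟨z, ?_⟩
  rw [← hz, altSum, hx, sum_powerset_fin]
  refine sum_congr rfl fun T _ => ?_
  rw [Multiset.card_map]
  show (-1 : ℂ) ^ T.card * _ = (-1 : ℂ) ^ T.card * _
  congr 1
  have h1 : (Multiset.map x T.val).sum = ∑ i ∈ T, x i := rfl
  rw [h1, hf, aeval_comp, map_add, aeval_X, aeval_C, aeval_bin]
  congr 1
  have h2 : D n (∑ i ∈ T, x i - c₀) = ∏ j ∈ range n, (∑ i ∈ T, x i - c₀ + (k : ℂ) - j) := by
    rcases Nat.even_or_odd' n with ⟨h, h3 | h3⟩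
    · have h4 : h = k := by omega
      rw [h3, (D_even h _).1, h4]
    · have h4 : h = k := by omega
      rw [h3, (D_even h _).2, h4]
  rw [h2]
  refine prod_congr rfl fun j _ => ?_
  simp only [eq_ratCast, Rat.cast_intCast]
  push_cast
  ring

/-- The difference of the two products is small. -/
theorem near {N r R : ℕ} (P : ℤ[X]) (x : Fin r → ℂ) (hx : rootsOf P = univ.val.map x) (c₀ : ℤ)
    (hRR : RiemannRochSub N P) (hR : 1 ≤ R) (hrR : r ≤ R) (hN : 12 * R ≤ N)
    (hS : ∀ S ∈ (rootsOf P).powerset, ‖S.sum - c₀‖ ≤ R) (w : ℂ) (hw : ‖w‖ ≤ 1 / 2) :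
    ‖((rootsOf P).map fun a => 1 - Complex.exp ((-(2 * Real.pi * Complex.I) - w) * a)).prod -
      ((rootsOf P).map fun a => 1 - Complex.exp (-w * a)).prod‖ ≤
        Real.exp (120 * R - 5 / 2 * N) := by
  have hv : ∀ T ∈ (univ : Finset (Fin r)).powerset, ‖∑ i ∈ T, x i - c₀‖ ≤ R := by
    intro T _
    refine hS (T.val.map x) ?_
    rw [Multiset.mem_powerset, hx]
    exact Multiset.map_le_map (val_le_iff.2 (subset_univ T))
  have h1 := periodic ((univ : Finset (Fin r)).powerset) (fun T => (-1 : ℂ) ^ T.card)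
    (fun T => ∑ i ∈ T, x i - c₀) R N hR (by
      rw [card_powerset, card_univ, Fintype.card_fin]
      exact Nat.pow_le_pow_right (by norm_num) hrR) (fun T _ => by
      rw [norm_pow, norm_neg, norm_one, one_pow]) hv (rr_newton P x hx c₀ hRR) hN w hw
  have hc₀ : ‖(c₀ : ℂ)‖ ≤ R := by
    have h2 := hS 0 (by simp)
    rwa [Multiset.sum_zero, zero_sub, norm_neg] at h2
  have hG : ∀ u : ℂ, ((rootsOf P).map fun a => 1 - Complex.exp (u * a)).prod =
      ∑ T ∈ (univ : Finset (Fin r)).powerset, (-1 : ℂ) ^ T.card *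
        Complex.exp (u * ∑ i ∈ T, x i) := by
    intro u
    have h2 := altSum_mul (fun a : ℂ => Complex.exp (u * a)) (by simp)
      (fun a b => by rw [mul_add, Complex.exp_add]) (rootsOf P)
    rw [← h2, hx, sum_powerset_fin]
    refine sum_congr rfl fun T _ => ?_
    rw [Multiset.card_map]
    rfl
  rw [hG, hG, ← sum_sub_distrib]
  have h2 : ∑ T ∈ (univ : Finset (Fin r)).powerset, ((-1 : ℂ) ^ T.card *
      Complex.exp ((-(2 * Real.pi * Complex.I) - w) * ∑ i ∈ T, x i) -
      (-1 : ℂ) ^ T.card * Complex.exp (-w * ∑ i ∈ T, x i)) = Complex.exp (-w * c₀) *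
      ∑ T ∈ (univ : Finset (Fin r)).powerset, (-1 : ℂ) ^ T.card *
        ((Complex.exp (-(2 * Real.pi * Complex.I) * (∑ i ∈ T, x i - c₀)) - 1) *
          Complex.exp (-w * (∑ i ∈ T, x i - c₀))) := by
    rw [mul_sum]
    refine sum_congr rfl fun T _ => ?_
    set α := ∑ i ∈ T, x i with hα
    have e1 : Complex.exp (-(2 * Real.pi * Complex.I) * (α - c₀)) =
        Complex.exp (-(2 * Real.pi * Complex.I) * α) := by
      have h3 : -(2 * Real.pi * Complex.I) * (α - c₀) = -(2 * Real.pi * Complex.I) * α +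
          (c₀ : ℂ) * (2 * Real.pi * Complex.I) := by ring
      rw [h3, Complex.exp_add, Complex.exp_int_mul_two_pi_mul_I, mul_one]
    have e2 : Complex.exp (-w * α) = Complex.exp (-w * c₀) * Complex.exp (-w * (α - c₀)) := by
      rw [← Complex.exp_add]
      congr 1
      ring
    have e3 : Complex.exp ((-(2 * Real.pi * Complex.I) - w) * α) =
        Complex.exp (-(2 * Real.pi * Complex.I) * α) * Complex.exp (-w * α) := by
      rw [← Complex.exp_add]
      congr 1
      ring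
    rw [e1, e3, e2]
    ring
  rw [h2, norm_mul]
  have h3 : ‖Complex.exp (-w * c₀)‖ ≤ Real.exp (1 / 2 * R) := by
    rw [Complex.norm_exp]
    refine Real.exp_le_exp.2 ((Complex.re_le_norm _).trans ?_)
    rw [norm_mul, norm_neg]
    exact mul_le_mul hw hc₀ (norm_nonneg _) (by norm_num)
  calc _ ≤ Real.exp (1 / 2 * R) * Real.exp (119.5 * R - 5 / 2 * N) :=
        mul_le_mul h3 h1 (norm_nonneg _) (Real.exp_pos _).le
    _ = _ := by
      rw [← Real.exp_add]
      congr 1
      ring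

/-- A factor `1 - exp z` is not smaller than `‖z‖ / 2` for small `z`. -/
lemma half_le (z : ℂ) (hz : ‖z‖ ≤ 1 / 2) : ‖z‖ / 2 ≤ ‖1 - Complex.exp z‖ := by
  have h1 := Complex.norm_exp_sub_one_sub_id_le (x := z) (by linarith)
  have h2 : ‖z‖ ≤ ‖1 - Complex.exp z‖ + ‖Complex.exp z - 1 - z‖ := by
    calc ‖z‖ = ‖-((1 - Complex.exp z) + (Complex.exp z - 1 - z))‖ := by
          congr 1
          ring
      _ ≤ _ := by rw [norm_neg]; exact norm_add_le _ _
  nlinarith [norm_nonneg z]

lemma prod_lower (A : Multiset ℤ) (g : ℤ → ℂ) (δ : ℝ) (hδ : 0 ≤ δ) (h : ∀ a ∈ A, δ ≤ ‖g a‖) :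
    δ ^ Multiset.card A ≤ ‖(A.map g).prod‖ := by
  induction A using Multiset.induction_on with
  | empty => simp
  | cons a A ih =>
    rw [Multiset.card_cons, Multiset.map_cons, Multiset.prod_cons, norm_mul, pow_succ, mul_comm]
    exact mul_le_mul (h a (Multiset.mem_cons_self a A))
      (ih fun b hb => h b (Multiset.mem_cons_of_mem hb)) (by positivity) (norm_nonneg _)

theorem integral_roots (P : ℤ[X]) (hP : P.Monic) (r ρ R N : ℕ) (hr : 1 ≤ r)
    (hdeg : P.natDegree = r) (hρ : 1 ≤ ρ) (hroot : ∀ a ∈ rootsOf P, ‖a‖ ≤ ρ)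
    (h0 : ∀ a ∈ rootsOf P, a ≠ 0) (hrR : r ≤ R) (c₀ : ℤ)
    (hS : ∀ S ∈ (rootsOf P).powerset, ‖S.sum - c₀‖ ≤ R) (hN : 12 * R ≤ N)
    (hNlog : 120 * R + r * Real.log (4 * (ρ + 1)) + r * Real.log 2 +
      r * (min r (2 * ρ + 1) : ℕ) * Real.log (2 * ρ) < 5 / 2 * N)
    (hRR : RiemannRochSub N P) : ∃ a : Multiset ℤ, P = (a.map fun x => X - C x).prod := by
  obtain ⟨f, hf, -, hfr⟩ := exists_prod_multiset_X_sub_C_mul P
  set A : Multiset ℤ := P.roots with hA
  have hAm : (A.map fun a => X - C a).prod.Monic := monic_multiset_prod_of_monic _ _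
    fun a _ => monic_X_sub_C a
  have hfm : f.Monic := by
    refine Monic.of_mul_monic_left hAm ?_
    rw [hf]
    exact hP
  by_cases hm : f.natDegree = 0
  · refine ⟨A, ?_⟩
    rw [← hf, hfm.natDegree_eq_zero.1 hm, mul_one]
  exfalso
  obtain ⟨m, hmdef⟩ : ∃ m, f.natDegree = m := ⟨_, rfl⟩
  -- the roots
  have hroots : rootsOf P = (A.map fun a : ℤ => (a : ℂ)) + rootsOf f := by
    have h1 : ((A.map fun a => X - C a).prod * f).map (Int.castRingHom ℂ) =
        ((A.map fun a : ℤ => (a : ℂ)).map fun a => X - C a).prod * f.map (Int.castRingHom ℂ) := by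
      rw [Polynomial.map_mul, Polynomial.map_multiset_prod, Multiset.map_map, Multiset.map_map]
      congr 2
      refine Multiset.map_congr rfl fun a _ => ?_
      simp
    have h2 : ((A.map fun a : ℤ => (a : ℂ)).map fun a => X - C a).prod ≠ 0 :=
      (monic_multiset_prod_of_monic _ _ fun a _ => monic_X_sub_C a).ne_zero
    have h3 : f.map (Int.castRingHom ℂ) ≠ 0 := (hfm.map _).ne_zero
    rw [rootsOf, ← hf, h1, roots_mul (mul_ne_zero h2 h3), roots_multiset_prod_X_sub_C, rootsOf]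
  obtain ⟨x, hx⟩ := exists_fun (rootsOf P) (r := r) (by
    rw [rootsOf, splits_iff_card_roots.1 (IsAlgClosed.splits _), hP.natDegree_map, hdeg])
  obtain ⟨y, hy⟩ := exists_fun (rootsOf f) (r := m) (by
    rw [rootsOf, splits_iff_card_roots.1 (IsAlgClosed.splits _), hfm.natDegree_map, hmdef])
  have hno : ∀ κ : ℤ, f.eval κ ≠ 0 := by
    intro κ h
    have h1 : κ ∈ f.roots := (mem_roots hfm.ne_zero).2 h
    rw [hfr] at h1
    simp at h1
  have hcard : Multiset.card A + m = r := by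
    have h1 : Multiset.card (rootsOf P) = r := by rw [← hx]; simp
    have h2 : Multiset.card (rootsOf f) = m := by rw [← hy]; simp
    rw [hroots, Multiset.card_add, Multiset.card_map, h2] at h1
    exact h1
  have hyρ : ∀ i, ‖y i‖ ≤ ρ := by
    intro i
    refine hroot _ ?_
    rw [hroots, Multiset.mem_add, ← hy]
    exact Or.inr (Multiset.mem_map_of_mem _ (mem_univ i))
  have hρ' : (1 : ℝ) ≤ ρ := by exact_mod_cast hρ
  set ε : ℝ := Real.exp (120 * R - 5 / 2 * N) with hε
  have hε0 : 0 < ε := Real.exp_pos _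
  set H : ℂ → ℂ := fun w => ∏ i, (1 - Complex.exp ((-(2 * Real.pi * Complex.I) - w) * y i)) -
    ∏ i, (1 - Complex.exp (-w * y i)) with hH
  have hHd : Differentiable ℂ H := by
    rw [hH]
    refine Differentiable.sub ?_ ?_
    · exact Differentiable.fun_finsetProd fun i _ => by fun_prop
    · exact Differentiable.fun_finsetProd fun i _ => by fun_prop
  have hfac : ∀ w : ℂ, ((rootsOf P).map fun a =>
        1 - Complex.exp ((-(2 * Real.pi * Complex.I) - w) * a)).prod -
      ((rootsOf P).map fun a => 1 - Complex.exp (-w * a)).prod =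
      (A.map fun a : ℤ => 1 - Complex.exp (-w * a)).prod * H w := by
    intro w
    rw [hroots, Multiset.map_add, Multiset.map_add, Multiset.prod_add, Multiset.prod_add,
      Multiset.map_map, Multiset.map_map, ← hy, Multiset.map_map, Multiset.map_map]
    have h1 : (A.map ((fun a : ℂ => 1 - Complex.exp ((-(2 * Real.pi * Complex.I) - w) * a)) ∘
        fun a : ℤ => (a : ℂ))) = A.map fun a : ℤ => 1 - Complex.exp (-w * a) := by
      refine Multiset.map_congr rfl fun a _ => ?_
      show 1 - Complex.exp ((-(2 * Real.pi * Complex.I) - w) * (a : ℂ)) = _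
      have h2 : (-(2 * Real.pi * Complex.I) - w) * (a : ℂ) = -w * a +
          ((-a : ℤ) : ℂ) * (2 * Real.pi * Complex.I) := by
        push_cast
        ring
      rw [h2, Complex.exp_add, Complex.exp_int_mul_two_pi_mul_I, mul_one]
    rw [h1]
    show _ - (A.map fun a : ℤ => 1 - Complex.exp (-w * a)).prod * _ = _
    rw [← mul_sub]
    rfl
  set s : ℝ := 1 / (2 * (ρ + 1)) with hs
  have hs0 : 0 < s := by positivity
  have hs2 : s ≤ 1 / 4 := by
    rw [hs]
    apply one_div_le_one_div_of_le (by norm_num)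
    linarith
  have hI : ∀ w : ℂ, ‖w‖ = s → (1 / (4 * (ρ + 1)) : ℝ) ^ r ≤
      ‖(A.map fun a : ℤ => 1 - Complex.exp (-w * a)).prod‖ := by
    intro w hw
    have h1 : (1 / (4 * (ρ + 1)) : ℝ) ^ r ≤ (1 / (4 * (ρ + 1)) : ℝ) ^ Multiset.card A := by
      apply pow_le_pow_of_le_one (by positivity) _ (by omega)
      rw [div_le_one (by positivity)]
      linarith
    refine h1.trans ?_
    apply prod_lower A _ _ (by positivity)
    intro a ha
    have ha' : (a : ℂ) ∈ rootsOf P := by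
      rw [hroots, Multiset.mem_add]
      exact Or.inl (Multiset.mem_map_of_mem _ ha)
    have h2 := hroot _ ha'
    have h3 : (1 : ℝ) ≤ ‖(a : ℂ)‖ := by
      rw [Complex.norm_intCast]
      have h4 : a ≠ 0 := fun h => h0 _ ha' (by rw [h]; simp)
      have h5 : 1 ≤ |a| := Int.one_le_abs h4
      have h6 : ((1 : ℤ) : ℝ) ≤ ((|a| : ℤ) : ℝ) := by exact_mod_cast h5
      push_cast at h6
      exact h6
    have h4 : ‖-w * (a : ℂ)‖ = s * ‖(a : ℂ)‖ := by rw [norm_mul, norm_neg, hw]
    have h5 : s * ‖(a : ℂ)‖ ≤ 1 / 2 := by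
      rw [hs, one_div_mul_eq_div, div_le_div_iff₀ (by positivity) (by norm_num)]
      linarith
    have h6 := half_le (-w * a) (by rw [h4]; exact h5)
    rw [h4] at h6
    refine le_trans ?_ h6
    have h7 : (1 / (4 * (ρ + 1)) : ℝ) = s / 2 := by
      rw [hs]
      field_simp
      norm_num
    rw [h7]
    nlinarith
  set B : ℝ := ε * (4 * (ρ + 1)) ^ r with hB
  have hHB : ∀ w : ℂ, ‖w‖ = s → ‖H w‖ ≤ B := by
    intro w hw
    have h1 := near P x hx.symm c₀ hRR (hr.trans hrR) hrR hN hS w (by rw [hw]; linarith)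
    rw [hfac, norm_mul] at h1
    have h2 := hI w hw
    have h3 : (1 / (4 * (ρ + 1)) : ℝ) ^ r * ‖H w‖ ≤ ε :=
      (mul_le_mul_of_nonneg_right h2 (norm_nonneg _)).trans h1
    have h4 : (1 / (4 * (ρ + 1)) : ℝ) ^ r * (4 * (ρ + 1)) ^ r = 1 := by
      rw [← mul_pow, one_div_mul_cancel (by positivity), one_pow]
    calc ‖H w‖ = ((1 / (4 * (ρ + 1)) : ℝ) ^ r * ‖H w‖) * (4 * (ρ + 1)) ^ r := by
          rw [mul_right_comm, h4, one_mul]
      _ ≤ _ := mul_le_mul_of_nonneg_right h3 (by positivity)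
  have hH0 : ‖H 0‖ ≤ B := by
    refine Complex.norm_le_of_forall_mem_frontier_norm_le (U := Metric.ball 0 s)
      Metric.isBounded_ball hHd.diffContOnCl (fun z hz => ?_) (subset_closure (Metric.mem_ball_self hs0))
    rw [frontier_ball _ hs0.ne', mem_sphere_zero_iff_norm] at hz
    exact hHB z hz
  have hH0' : ‖H 0‖ = ∏ i, ‖1 - Complex.exp (-(2 * Real.pi * Complex.I) * y i)‖ := by
    rw [hH]
    show ‖_ - _‖ = _
    have h1 : ∏ i : Fin m, (1 - Complex.exp (-0 * y i)) = 0 := by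
      have hm' : 0 < m := by omega
      refine prod_eq_zero (mem_univ ⟨0, hm'⟩) ?_
      simp
    rw [h1, sub_zero, sub_zero, norm_prod]
  have hlow := lower f hfm m ρ hρ y hy.symm hyρ hno
  rw [← hH0'] at hlow
  have hfin := hlow.trans hH0
  -- comparison
  have hmr : m ≤ r := by omega
  have hlog2 : 0 ≤ Real.log 2 := Real.log_nonneg (by norm_num)
  have hlogρ : 0 ≤ Real.log (2 * ρ) := Real.log_nonneg (by linarith)
  have h1 := Real.log_le_log (by positivity) hfin
  rw [Real.log_mul (by positivity) (by positivity), Real.log_pow, Real.log_pow, hB,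
    Real.log_mul hε0.ne' (by positivity), Real.log_pow, hε, Real.log_exp, one_div, one_div,
    Real.log_inv, Real.log_inv] at h1
  have h2 : (m : ℝ) * Real.log 2 ≤ r * Real.log 2 :=
    mul_le_mul_of_nonneg_right (by exact_mod_cast hmr) hlog2
  have h3 : ((m * min m (2 * ρ + 1) : ℕ) : ℝ) * Real.log (2 * ρ) ≤
      r * (min r (2 * ρ + 1) : ℕ) * Real.log (2 * ρ) := by
    apply mul_le_mul_of_nonneg_right _ hlogρ
    have h4 : m * min m (2 * ρ + 1) ≤ r * min r (2 * ρ + 1) :=
      Nat.mul_le_mul hmr (min_le_min_right _ hmr)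
    exact_mod_cast h4
  linarith

end Pool.Agent.K4H57.UN
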