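import Pool.Agent.R920.CH.Main

/-!
# Central Newton polynomials
-/

set_option autoImplicit false

open Finset

namespace Pool.Agent.K4H57.UN

open Pool.Agent.R920.CH

/-- The sequence `0, -1, 1, -2, 2, …`. -/
def sq (n : ℕ) : ℤ := if n % 2 = 0 then ((n / 2 : ℕ) : ℤ) else -((n / 2 : ℕ) : ℤ) - 1

/-- The Newton polynomials of the sequence `sq`. -/
noncomputable def D (n : ℕ) (x : ℂ) : ℂ := ∏ j ∈ range n, (x - sq j)

lemma D_succ (n : ℕ) (x : ℂ) : D (n + 1) x = D n x * (x - sq n) := prod_range_succ _ _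

lemma sq_even (h : ℕ) : sq (2 * h) = h := by
  rw [sq, if_pos (by omega)]
  congr 1
  omega

lemma sq_odd (h : ℕ) : sq (2 * h + 1) = -(h : ℤ) - 1 := by
  rw [sq, if_neg (by omega)]
  have : (2 * h + 1) / 2 = h := by omega
  rw [this]

lemma sq_inj {m n : ℕ} (h : sq m = sq n) : m = n := by
  rw [sq, sq] at h
  split_ifs at h <;> omega

lemma sq_abs (n h : ℕ) (hn : n < 2 * h) : |sq n| ≤ h := by
  rw [sq, abs_le]
  split_ifs <;> constructor <;> omega

lemma D_even (h : ℕ) (x : ℂ) : D (2 * h) x = ∏ j ∈ range (2 * h), (x + h - j) ∧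
    D (2 * h + 1) x = ∏ j ∈ range (2 * h + 1), (x + h - j) := by
  have key : ∀ h : ℕ, D (2 * h) x = ∏ j ∈ range (2 * h), (x + h - j) →
      D (2 * h + 1) x = ∏ j ∈ range (2 * h + 1), (x + h - j) := by
    intro h hh
    rw [D_succ, prod_range_succ, hh, sq_even]
    push_cast
    ring
  induction h with
  | zero =>
    have h0 : D (2 * 0) x = ∏ j ∈ range (2 * 0), (x + (0 : ℕ) - j) := by simp [D]
    exact ⟨h0, key 0 h0⟩
  | succ h ih =>
    have h1 : D (2 * (h + 1)) x = ∏ j ∈ range (2 * (h + 1)), (x + (h + 1 : ℕ) - j) := by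
      have hp : ∏ j ∈ range (2 * h + 1), (x + ((h + 1 : ℕ) : ℂ) - ((j + 1 : ℕ) : ℂ)) =
          ∏ j ∈ range (2 * h + 1), (x + (h : ℂ) - (j : ℂ)) := by
        refine prod_congr rfl fun j _ => ?_
        push_cast
        ring
      rw [show 2 * (h + 1) = 2 * h + 1 + 1 by ring,
        prod_range_succ' (fun j : ℕ => x + ((h + 1 : ℕ) : ℂ) - (j : ℂ)) (2 * h + 1), hp, D_succ,
        ih.2, sq_odd]
      push_cast
      ring
    exact ⟨h1, key _ h1⟩

lemma D_bound (x : ℂ) (R n : ℕ) (hx : ‖x‖ ≤ R) (hn : 2 * R ≤ n) :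
    ‖(n.factorial : ℂ)⁻¹ * D n x‖ ≤
      ((R + n / 2).choose (n / 2) : ℝ) ^ 2 / (2 * (n / 2)).choose (n / 2) := by
  have h2 := norm_central x R (n / 2) hx
  rw [← (D_even (n / 2) x).1] at h2
  rcases Nat.even_or_odd' n with ⟨h, rfl | rfl⟩
  · rwa [show 2 * h / 2 = h by omega] at h2 ⊢
  · have e : (2 * h + 1) / 2 = h := by omega
    rw [e] at h2 ⊢
    refine le_trans ?_ h2
    rw [D_succ, sq_even, Nat.factorial_succ]
    have h3 : (((2 * h + 1) * (2 * h).factorial : ℕ) : ℂ)⁻¹ * (D (2 * h) x * (x - ((h : ℤ) : ℂ))) =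
        (((2 * h).factorial : ℂ)⁻¹ * D (2 * h) x) * ((((2 * h + 1 : ℕ) : ℂ))⁻¹ * (x - h)) := by
      push_cast
      rw [mul_inv]
      ring
    rw [h3, norm_mul]
    refine mul_le_of_le_one_right (norm_nonneg _) ?_
    rw [norm_mul, norm_inv, Complex.norm_natCast, inv_mul_le_iff₀ (by positivity), mul_one]
    refine (norm_sub_le _ _).trans ?_
    rw [Complex.norm_natCast]
    have h4 : (R : ℝ) ≤ h := by
      have : R ≤ h := by omega
      exact_mod_cast this
    push_cast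
    linarith

lemma choose_bound (R h : ℕ) : ((R + h).choose h : ℝ) ≤ (7 / 6) ^ (R + h) * 6 ^ R := by
  have h1 : ((R + h).choose h : ℝ) * (1 / 6) ^ R ≤ (7 / 6) ^ (R + h) := by
    have h2 := add_pow (1 / 6 : ℝ) 1 (R + h)
    have h3 : (1 / 6 : ℝ) + 1 = 7 / 6 := by norm_num
    rw [h3] at h2
    rw [h2]
    have h4 := single_le_sum (f := fun m => (1 / 6 : ℝ) ^ m * 1 ^ (R + h - m) * ((R + h).choose m))
      (s := range (R + h + 1)) (fun m _ => by positivity) (mem_range.2 (by omega : R < R + h + 1))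
    refine le_trans (le_of_eq ?_) h4
    have h5 : (R + h).choose R = (R + h).choose h := by
      rw [← Nat.choose_symm (by omega : R ≤ R + h)]
      congr 1
      omega
    show _ = (1 / 6 : ℝ) ^ R * 1 ^ (R + h - R) * ((R + h).choose R)
    rw [h5]
    ring
  have h2 : (1 / 6 : ℝ) ^ R * 6 ^ R = 1 := by rw [← mul_pow]; norm_num
  calc ((R + h).choose h : ℝ) = ((R + h).choose h : ℝ) * (1 / 6) ^ R * 6 ^ R := by
        rw [mul_assoc, h2, mul_one]
    _ ≤ _ := mul_le_mul_of_nonneg_right h1 (by positivity)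

lemma small (R h : ℕ) (hR : 1 ≤ R) (hh : 6 * R ≤ h) :
    (2 : ℝ) ^ R * (((R + h).choose h : ℝ) ^ 2 / (2 * h).choose h) < 1 := by
  have hC : (0 : ℝ) < (2 * h).choose h := by
    exact_mod_cast Nat.choose_pos (by omega : h ≤ 2 * h)
  rw [← mul_div_assoc, div_lt_one hC]
  obtain ⟨t, rfl⟩ := Nat.exists_eq_add_of_le hh
  set h := 6 * R + t with hdef
  have hR' : (1 : ℝ) ≤ R := by exact_mod_cast hR
  have h4 : (4 : ℝ) ^ h < h * (2 * h).choose h := by
    have := Nat.four_pow_lt_mul_centralBinom h (by omega)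
    rw [Nat.centralBinom_eq_two_mul_choose] at this
    exact_mod_cast this
  have h5 : ((2 : ℝ) ^ R * ((R + h).choose h : ℝ) ^ 2) ≤ 98 ^ R * (49 / 36) ^ h := by
    have h6 := choose_bound R h
    have h7 : ((R + h).choose h : ℝ) ^ 2 ≤ ((7 / 6) ^ (R + h) * 6 ^ R) ^ 2 :=
      pow_le_pow_left₀ (by positivity) h6 2
    have h8 : (2 : ℝ) ^ R * ((7 / 6) ^ (R + h) * 6 ^ R) ^ 2 = 98 ^ R * (49 / 36) ^ h := by
      have e1 : ((7 / 6 : ℝ) ^ (R + h)) ^ 2 = (49 / 36) ^ R * (49 / 36) ^ h := by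
        rw [← pow_mul, mul_comm (R + h) 2, pow_mul, ← pow_add]
        norm_num
      have e2 : ((6 : ℝ) ^ R) ^ 2 = 36 ^ R := by
        rw [← pow_mul, mul_comm R 2, pow_mul]
        norm_num
      have e3 : (2 : ℝ) ^ R * (49 / 36) ^ R * 36 ^ R = 98 ^ R := by
        rw [← mul_pow, ← mul_pow]
        norm_num
      rw [mul_pow, e1, e2, ← e3]
      ring
    rw [← h8]
    exact mul_le_mul_of_nonneg_left h7 (by positivity)
  have h9 : (98 : ℝ) ^ R * (49 / 36) ^ h * h ≤ 4 ^ h := by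
    have e1 : (4 : ℝ) ^ h = (144 / 49) ^ h * (49 / 36) ^ h := by
      rw [← mul_pow]
      norm_num
    rw [e1]
    have k1 : (588 : ℝ) ^ R ≤ (144 / 49) ^ (6 * R) := by
      rw [pow_mul]
      exact pow_le_pow_left₀ (by norm_num) (by norm_num) R
    have k2 : (6 : ℝ) * R ≤ 6 ^ R := by
      obtain ⟨Q, rfl⟩ := Nat.exists_eq_add_of_le hR
      have k3 := one_add_mul_le_pow (by norm_num : (-2 : ℝ) ≤ 5) Q
      rw [pow_add, pow_one]
      have k4 : (1 : ℝ) + 5 = 6 := by norm_num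
      rw [k4] at k3
      push_cast
      have : (0 : ℝ) ≤ Q := by positivity
      nlinarith
    have k3 : (1 : ℝ) + t ≤ (144 / 49) ^ t := by
      have k4 := one_add_mul_le_pow (by norm_num : (-2 : ℝ) ≤ 95 / 49) t
      have k5 : (1 : ℝ) + 95 / 49 = 144 / 49 := by norm_num
      rw [k5] at k4
      have : (0 : ℝ) ≤ t := by positivity
      linarith
    have k6 : (98 : ℝ) ^ R * h ≤ (144 / 49) ^ h := by
      have k7 : (h : ℝ) = 6 * R + t := by rw [hdef]; push_cast; ring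
      have k8 : (0 : ℝ) ≤ t := by positivity
      calc (98 : ℝ) ^ R * h ≤ 98 ^ R * (6 ^ R * (1 + t)) := by
            apply mul_le_mul_of_nonneg_left _ (by positivity)
            rw [k7]
            nlinarith
        _ = 588 ^ R * (1 + t) := by
            rw [← mul_assoc, ← mul_pow]
            norm_num
        _ ≤ (144 / 49) ^ (6 * R) * (144 / 49) ^ t := mul_le_mul k1 k3 (by positivity) (by positivity)
        _ = _ := by rw [← pow_add]
    calc (98 : ℝ) ^ R * (49 / 36) ^ h * h = (98 ^ R * h) * (49 / 36) ^ h := by ring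
      _ ≤ _ := mul_le_mul_of_nonneg_right k6 (by positivity)
  have hh0 : (0 : ℝ) < h := by
    have : 0 < h := by omega
    exact_mod_cast this
  have h10 : ((2 : ℝ) ^ R * ((R + h).choose h : ℝ) ^ 2) * h < (2 * h).choose h * h := by
    calc ((2 : ℝ) ^ R * ((R + h).choose h : ℝ) ^ 2) * h ≤ 98 ^ R * (49 / 36) ^ h * h :=
          mul_le_mul_of_nonneg_right h5 hh0.le
      _ ≤ 4 ^ h := h9
      _ < h * (2 * h).choose h := h4
      _ = _ := by ring
  exact lt_of_mul_lt_mul_right h10 hh0.le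

section

variable {ι : Type*} (T : Finset ι) (c v : ι → ℂ) (R N : ℕ) (hR : 1 ≤ R) (hT : T.card ≤ 2 ^ R)
  (hc : ∀ i ∈ T, ‖c i‖ ≤ 1) (hv : ∀ i ∈ T, ‖v i‖ ≤ R)
  (hZ : ∀ n ≤ N, ∃ z : ℤ, ∑ i ∈ T, c i * ((n.factorial : ℂ)⁻¹ * D n (v i)) = z)

include hR hT hc hv hZ

lemma kill (n : ℕ) (h1 : 12 * R ≤ n) (h2 : n ≤ N) : ∑ i ∈ T, c i * D n (v i) = 0 := by
  obtain ⟨z, hz⟩ := hZ n h2
  have h3 : ‖∑ i ∈ T, c i * ((n.factorial : ℂ)⁻¹ * D n (v i))‖ < 1 := by
    refine lt_of_le_of_lt ?_ (small R (n / 2) hR (by omega))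
    refine (norm_sum_le_of_le (f := fun i => c i * ((n.factorial : ℂ)⁻¹ * D n (v i)))
      (n := fun _ => ((R + n / 2).choose (n / 2) : ℝ) ^ 2 / (2 * (n / 2)).choose (n / 2)) T
      fun i hi => ?_).trans ?_
    · rw [norm_mul]
      have h4 := D_bound (v i) R n (hv i hi) (by omega)
      calc ‖c i‖ * ‖(n.factorial : ℂ)⁻¹ * D n (v i)‖ ≤ 1 * ‖(n.factorial : ℂ)⁻¹ * D n (v i)‖ :=
            mul_le_mul_of_nonneg_right (hc i hi) (norm_nonneg _)
        _ ≤ _ := by rw [one_mul]; exact h4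
    · rw [sum_const, nsmul_eq_mul]
      refine mul_le_mul_of_nonneg_right ?_ (by positivity)
      exact_mod_cast hT
  have h4 := int_of_small hz h3
  have h5 : ∑ i ∈ T, c i * D n (v i) = (n.factorial : ℂ) *
      ∑ i ∈ T, c i * ((n.factorial : ℂ)⁻¹ * D n (v i)) := by
    rw [mul_sum]
    refine sum_congr rfl fun i _ => ?_
    have : (n.factorial : ℂ) ≠ 0 := by exact_mod_cast n.factorial_ne_zero
    field_simp
  rw [h5, h4, mul_zero]

lemma moments (j : ℕ) : ∀ n, 12 * R ≤ n → n + j ≤ N → ∑ i ∈ T, c i * (D n (v i) * v i ^ j) = 0 := by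
  induction j with
  | zero =>
    intro n h1 h2
    have := kill T c v R N hR hT hc hv hZ n h1 h2
    simpa using this
  | succ j ih =>
    intro n h1 h2
    have h3 := ih (n + 1) (by omega) (by omega)
    have h4 := ih n h1 (by omega)
    have h5 : ∑ i ∈ T, c i * (D n (v i) * v i ^ (j + 1)) =
        ∑ i ∈ T, c i * (D (n + 1) (v i) * v i ^ j) +
          (sq n : ℂ) * ∑ i ∈ T, c i * (D n (v i) * v i ^ j) := by
      rw [mul_sum, ← sum_add_distrib]
      refine sum_congr rfl fun i _ => ?_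
      rw [D_succ]
      ring
    rw [h5, h3, h4, mul_zero, add_zero]

end

/-- Division by the Newton polynomials. -/
lemma divide (φ : ℂ → ℂ) (hφ : Differentiable ℂ φ) (hz : ∀ m : ℤ, φ m = 0) (n : ℕ) :
    ∃ g : ℂ → ℂ, Differentiable ℂ g ∧ ∀ z, φ z = D n z * g z := by
  induction n with
  | zero => exact ⟨φ, hφ, fun z => by simp [D]⟩
  | succ n ih =>
    obtain ⟨g, hg, hgz⟩ := ih
    have h1 : D n (sq n) ≠ 0 := by
      rw [D, prod_ne_zero_iff]
      intro j hj h
      rw [sub_eq_zero] at h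
      have h2 : sq n = sq j := by exact_mod_cast h
      have := sq_inj h2
      rw [mem_range] at hj
      omega
    have h2 : g (sq n) = 0 := by
      have h3 := hgz (sq n)
      rw [hz, eq_comm, mul_eq_zero] at h3
      exact h3.resolve_left h1
    refine ⟨dslope g (sq n), ?_, fun z => ?_⟩
    · have h3 := (Complex.differentiableOn_dslope (f := g) (s := Set.univ) (c := ((sq n : ℤ) : ℂ))
        Filter.univ_mem).2 hg.differentiableOn
      exact differentiableOn_univ.1 h3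
    · have h4 := sub_smul_dslope g ((sq n : ℤ) : ℂ) z
      rw [smul_eq_mul, h2, sub_zero] at h4
      rw [D_succ, hgz z, ← h4]
      ring

end Pool.Agent.K4H57.UN
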