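import Pool.Agent.K4H57.UN.Newton

/-!
# Functionals which kill the Newton polynomials
-/

set_option autoImplicit false

open Finset

namespace Pool.Agent.K4H57.UN

lemma sq_norm (R j : ℕ) (hj : j < 12 * R) : ‖((sq j : ℤ) : ℂ)‖ ≤ 6 * R := by
  rw [Complex.norm_intCast]
  have h1 := sq_abs j (6 * R) (by omega)
  have h2 : ((|sq j| : ℤ) : ℝ) ≤ ((6 * R : ℕ) : ℤ) := by exact_mod_cast h1
  push_cast at h2
  exact h2

lemma norm_D_le (R : ℕ) (x : ℂ) (hx : ‖x‖ ≤ R) : ‖D (12 * R) x‖ ≤ (7 * R) ^ (12 * R) := by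
  rw [D, norm_prod]
  have h1 : ∏ j ∈ range (12 * R), ‖x - sq j‖ ≤ ∏ _j ∈ range (12 * R), (7 * R : ℝ) := by
    refine prod_le_prod (fun _ _ => norm_nonneg _) fun j hj => ?_
    rw [mem_range] at hj
    have h2 := sq_norm R j hj
    refine (norm_sub_le _ _).trans ?_
    linarith
  rwa [prod_const, card_range] at h1

lemma le_norm_D (R : ℕ) (x : ℂ) (hx : ‖x‖ = 13 * R) : (7 * R) ^ (12 * R) ≤ ‖D (12 * R) x‖ := by
  rw [D, norm_prod]
  have h1 : ∏ _j ∈ range (12 * R), (7 * R : ℝ) ≤ ∏ j ∈ range (12 * R), ‖x - sq j‖ := by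
    refine prod_le_prod (fun _ _ => by positivity) fun j hj => ?_
    rw [mem_range] at hj
    have h2 := sq_norm R j hj
    have h3 := norm_sub_norm_le x (sq j)
    rw [hx] at h3
    linarith
  rwa [prod_const, card_range] at h1

section

variable {ι : Type*} (T : Finset ι) (c v : ι → ℂ) (R N : ℕ) (hR : 1 ≤ R) (hT : T.card ≤ 2 ^ R)
  (hc : ∀ i ∈ T, ‖c i‖ ≤ 1) (hv : ∀ i ∈ T, ‖v i‖ ≤ R)
  (hZ : ∀ n ≤ N, ∃ z : ℤ, ∑ i ∈ T, c i * ((n.factorial : ℂ)⁻¹ * D n (v i)) = z)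

include hR hT hc hv hZ

theorem core (hN : 12 * R ≤ N) (φ : ℂ → ℂ) (hφ : Differentiable ℂ φ) (hz : ∀ m : ℤ, φ m = 0) (M : ℝ)
    (hM : ∀ z : ℂ, ‖z‖ = 13 * R → ‖φ z‖ ≤ M) :
    ‖∑ i ∈ T, c i * φ (v i)‖ ≤ 2 ^ R * M / 13 ^ (N - 12 * R + 1) * (13 / 12) := by
  obtain ⟨g, hg, hgz⟩ := divide φ hφ hz (12 * R)
  have hR0 : (0 : ℝ) < R := by exact_mod_cast hR
  have hP : (0 : ℝ) < (7 * R) ^ (12 * R) := by positivity
  have hM0 : 0 ≤ M := by
    refine (norm_nonneg (φ ((13 * R : ℝ) : ℂ))).trans (hM _ ?_)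
    rw [Complex.norm_real, Real.norm_of_nonneg (by positivity)]
  have hgb : ∀ z ∈ Metric.sphere (0 : ℂ) (13 * R), ‖g z‖ ≤ M / (7 * R) ^ (12 * R) := by
    intro z hz'
    rw [mem_sphere_zero_iff_norm] at hz'
    have h1 := hM z hz'
    rw [hgz z, norm_mul] at h1
    rw [le_div_iff₀ hP]
    calc ‖g z‖ * (7 * R) ^ (12 * R) ≤ ‖g z‖ * ‖D (12 * R) z‖ :=
          mul_le_mul_of_nonneg_left (le_norm_D R z hz') (norm_nonneg _)
      _ = ‖D (12 * R) z‖ * ‖g z‖ := mul_comm _ _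
      _ ≤ M := h1
  set γ : ℕ → ℂ := fun m => (m.factorial : ℂ)⁻¹ * iteratedDeriv m g 0 with hγ
  have hγb : ∀ m, ‖γ m‖ ≤ M / (7 * R) ^ (12 * R) / (13 * R) ^ m := by
    intro m
    have h1 := Complex.norm_iteratedDeriv_le_of_forall_mem_sphere_norm_le m
      (by positivity : (0 : ℝ) < 13 * R) hg.diffContOnCl hgb
    have h2 : (0 : ℝ) < m.factorial := by exact_mod_cast m.factorial_pos
    rw [hγ]
    show ‖(m.factorial : ℂ)⁻¹ * iteratedDeriv m g 0‖ ≤ _
    rw [norm_mul, norm_inv, Complex.norm_natCast, inv_mul_le_iff₀ h2]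
    refine h1.trans (le_of_eq ?_)
    ring
  have hsum : ∀ z, HasSum (fun m => γ m * z ^ m) (g z) := by
    intro z
    have h1 := Complex.hasSum_taylorSeries_of_entire hg 0 z
    have h2 : (fun m => γ m * z ^ m) =
        fun n : ℕ => (n.factorial : ℂ)⁻¹ • (z - 0) ^ n • iteratedDeriv n g 0 := by
      funext n
      rw [hγ, sub_zero, smul_eq_mul, smul_eq_mul]
      ring
    rw [h2]
    exact h1
  have hall : HasSum (fun m => ∑ i ∈ T, c i * (D (12 * R) (v i) * (γ m * v i ^ m)))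
      (∑ i ∈ T, c i * φ (v i)) := by
    refine hasSum_sum fun i _ => ?_
    rw [hgz]
    exact ((hsum (v i)).mul_left _).mul_left _
  have hterm : ∀ m, ∑ i ∈ T, c i * (D (12 * R) (v i) * (γ m * v i ^ m)) =
      γ m * ∑ i ∈ T, c i * (D (12 * R) (v i) * v i ^ m) := by
    intro m
    rw [mul_sum]
    exact sum_congr rfl fun i _ => by ring
  simp only [hterm] at hall
  have hzero : ∀ m ∈ range (N - 12 * R + 1),
      γ m * ∑ i ∈ T, c i * (D (12 * R) (v i) * v i ^ m) = 0 := by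
    intro m hm
    rw [mem_range] at hm
    rw [moments T c v R N hR hT hc hv hZ m (12 * R) le_rfl (by omega), mul_zero]
  have hshift := (hasSum_nat_add_iff' (N - 12 * R + 1)).2 hall
  rw [sum_eq_zero hzero, sub_zero] at hshift
  have hgeo : HasSum (fun m : ℕ => 2 ^ R * M / 13 ^ (N - 12 * R + 1) * (1 / 13 : ℝ) ^ m)
      (2 ^ R * M / 13 ^ (N - 12 * R + 1) * (13 / 12)) := by
    have h1 := (hasSum_geometric_of_lt_one (by norm_num : (0 : ℝ) ≤ 1 / 13) (by norm_num)).mul_left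
      (2 ^ R * M / 13 ^ (N - 12 * R + 1))
    have h2 : (1 - 1 / 13 : ℝ)⁻¹ = 13 / 12 := by norm_num
    rwa [h2] at h1
  refine hshift.norm_le_of_bounded hgeo fun m => ?_
  set e := N - 12 * R + 1 with he
  rw [norm_mul]
  have h1 : ‖∑ i ∈ T, c i * (D (12 * R) (v i) * v i ^ (m + e))‖ ≤
      2 ^ R * ((7 * R) ^ (12 * R) * R ^ (m + e)) := by
    refine (norm_sum_le_of_le (n := fun _ => ((7 * R) ^ (12 * R) * R ^ (m + e) : ℝ)) T
      fun i hi => ?_).trans ?_
    · rw [norm_mul, norm_mul, norm_pow]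
      calc ‖c i‖ * (‖D (12 * R) (v i)‖ * ‖v i‖ ^ (m + e)) ≤
          1 * (‖D (12 * R) (v i)‖ * ‖v i‖ ^ (m + e)) :=
            mul_le_mul_of_nonneg_right (hc i hi) (by positivity)
        _ ≤ _ := by
          rw [one_mul]
          exact mul_le_mul (norm_D_le R _ (hv i hi)) (pow_le_pow_left₀ (norm_nonneg _) (hv i hi) _)
            (by positivity) (by positivity)
    · rw [sum_const, nsmul_eq_mul]
      refine mul_le_mul_of_nonneg_right ?_ (by positivity)
      exact_mod_cast hT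
  calc ‖γ (m + e)‖ * ‖∑ i ∈ T, c i * (D (12 * R) (v i) * v i ^ (m + e))‖ ≤
      (M / (7 * R) ^ (12 * R) / (13 * R) ^ (m + e)) * (2 ^ R * ((7 * R) ^ (12 * R) * R ^ (m + e))) :=
        mul_le_mul (hγb _) h1 (norm_nonneg _) (by positivity)
    _ = _ := by
      rw [mul_pow (13 : ℝ) (R : ℝ) (m + e), pow_add (13 : ℝ) m e, div_pow, one_pow]
      have k1 : (R : ℝ) ^ (m + e) ≠ 0 := by positivity
      field_simp

/-- The functional is nearly periodic. -/
theorem periodic (hN : 12 * R ≤ N) (w : ℂ) (hw : ‖w‖ ≤ 1 / 2) :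
    ‖∑ i ∈ T, c i * ((Complex.exp (-(2 * Real.pi * Complex.I) * v i) - 1) *
      Complex.exp (-w * v i))‖ ≤ Real.exp (119.5 * R - 5 / 2 * N) := by
  have hR0 : (1 : ℝ) ≤ R := by exact_mod_cast hR
  set φ : ℂ → ℂ := fun z => (Complex.exp (-(2 * Real.pi * Complex.I) * z) - 1) *
    Complex.exp (-w * z) with hφ
  have hd : Differentiable ℂ φ := by
    rw [hφ]
    fun_prop
  have hz : ∀ m : ℤ, φ m = 0 := by
    intro m
    have h1 : Complex.exp (-(2 * Real.pi * Complex.I) * m) = 1 := by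
      rw [Complex.exp_eq_one_iff]
      exact ⟨-m, by push_cast; ring⟩
    rw [hφ]
    show (Complex.exp (-(2 * Real.pi * Complex.I) * m) - 1) * _ = 0
    rw [h1, sub_self, zero_mul]
  have hM : ∀ z : ℂ, ‖z‖ = 13 * R → ‖φ z‖ ≤ 2 * Real.exp (88.4 * R) := by
    intro z hz'
    have hn : ∀ u : ℂ, ‖Complex.exp (u * z)‖ ≤ Real.exp (‖u‖ * (13 * R)) := by
      intro u
      rw [Complex.norm_exp, ← hz', ← norm_mul]
      exact Real.exp_le_exp.2 (Complex.re_le_norm _)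
    have h1 : ‖Complex.exp (-(2 * Real.pi * Complex.I) * z)‖ ≤ Real.exp (81.9 * R) := by
      refine (hn _).trans (Real.exp_le_exp.2 ?_)
      rw [norm_neg, norm_mul, norm_mul, Complex.norm_I, Complex.norm_real, Complex.norm_two,
        Real.norm_of_nonneg Real.pi_pos.le]
      have := Real.pi_lt_d2
      nlinarith
    have h2 : ‖Complex.exp (-w * z)‖ ≤ Real.exp (6.5 * R) := by
      refine (hn _).trans (Real.exp_le_exp.2 ?_)
      rw [norm_neg]
      nlinarith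
    have h3 : ‖Complex.exp (-(2 * Real.pi * Complex.I) * z) - 1‖ ≤ 2 * Real.exp (81.9 * R) := by
      refine (norm_sub_le _ _).trans ?_
      rw [norm_one]
      have : 1 ≤ Real.exp (81.9 * R) := Real.one_le_exp (by positivity)
      linarith
    rw [hφ]
    show ‖_ * _‖ ≤ _
    rw [norm_mul]
    calc _ ≤ (2 * Real.exp (81.9 * R)) * Real.exp (6.5 * R) :=
          mul_le_mul h3 h2 (norm_nonneg _) (by positivity)
      _ = 2 * Real.exp (88.4 * R) := by
        rw [mul_assoc, ← Real.exp_add]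
        congr 2
        ring
  have h1 := core T c v R N hR hT hc hv hZ hN φ hd hz _ hM
  refine h1.trans ?_
  have h2 : (2 : ℝ) ^ R ≤ Real.exp (0.7 * R) := by
    have h3 : (2 : ℝ) ≤ Real.exp 0.7 := by
      rw [← Real.log_le_iff_le_exp (by norm_num)]
      have := Real.log_two_lt_d9
      linarith
    calc (2 : ℝ) ^ R ≤ (Real.exp 0.7) ^ R := pow_le_pow_left₀ (by norm_num) h3 _
      _ = _ := by rw [← Real.exp_nat_mul]; congr 1; ring
  have h3 : Real.exp (5 / 2 * (N - 12 * R)) ≤ 13 ^ (N - 12 * R) := by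
    have h4 : Real.exp (5 / 2) ≤ 13 := by
      have h5 : Real.exp 1 < 2.7182818286 := Real.exp_one_lt_d9
      have h6 : Real.exp (5 / 2) ^ 2 = Real.exp 1 ^ 5 := by
        rw [← Real.exp_nat_mul, ← Real.exp_nat_mul]
        norm_num
      have h7 : Real.exp 1 ^ 5 ≤ 13 ^ 2 := by
        calc Real.exp 1 ^ 5 ≤ 2.7182818286 ^ 5 := pow_le_pow_left₀ (Real.exp_pos _).le h5.le 5
          _ ≤ 13 ^ 2 := by norm_num
      rw [← h6] at h7
      exact (pow_le_pow_iff_left₀ (Real.exp_pos _).le (by norm_num) (by norm_num)).1 h7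
    have h5 : Real.exp (5 / 2 * ((N : ℝ) - 12 * R)) = Real.exp (5 / 2) ^ (N - 12 * R) := by
      rw [← Real.exp_nat_mul]
      congr 1
      rw [Nat.cast_sub hN]
      push_cast
      ring
    rw [h5]
    exact pow_le_pow_left₀ (Real.exp_pos _).le h4 _
  rw [pow_succ]
  have hE : 0 < Real.exp (5 / 2 * ((N : ℝ) - 12 * R)) := Real.exp_pos _
  calc 2 ^ R * (2 * Real.exp (88.4 * R)) / (13 ^ (N - 12 * R) * 13) * (13 / 12)
      = (1 / 6) * (2 ^ R * Real.exp (88.4 * R)) / 13 ^ (N - 12 * R) := by field_simp; norm_num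
    _ ≤ (Real.exp (0.7 * R) * Real.exp (88.4 * R)) / Real.exp (5 / 2 * (N - 12 * R)) := by
      apply div_le_div₀ (by positivity) _ hE h3
      have : (2 : ℝ) ^ R * Real.exp (88.4 * R) ≤ Real.exp (0.7 * R) * Real.exp (88.4 * R) :=
        mul_le_mul_of_nonneg_right h2 (Real.exp_pos _).le
      have h8 : (0 : ℝ) ≤ 2 ^ R * Real.exp (88.4 * R) := by positivity
      linarith
    _ = Real.exp (0.7 * R + 88.4 * R - 5 / 2 * (N - 12 * R)) := by
      rw [← Real.exp_add, ← Real.exp_sub]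
    _ ≤ _ := by
      apply Real.exp_le_exp.2
      linarith

end

end Pool.Agent.K4H57.UN
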